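import Mathlib

/-!
# Diversity-seeking jump games on trees need not be weakly acyclic

An explicit tree with 37 nodes, 36 agents of two types (hence exactly one empty node) and an
initial assignment from which no finite sequence of improving jumps reaches an equilibrium.
-/

namespace Pool.Agent.Results.MP_39759c_lc.NotWeaklyAcyclic

section Defs

variable {V A T : Type*}

/-- Utility of agent `i` when the agents are placed by `f : A → V` on the nodes of `G` and have
types `τ : A → T`: the fraction of agents of another type among the agents placed on nodes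
adjacent to the node of `i`.  Division by `0` is `0`, so the utility is `0` if there is no agent on
an adjacent node. -/
noncomputable def utility (G : SimpleGraph V) (τ : A → T) (f : A → V) (i : A) : ℚ :=
  ({j : A | G.Adj (f i) (f j) ∧ τ j ≠ τ i}.ncard : ℚ) / ({j : A | G.Adj (f i) (f j)}.ncard : ℚ)

open Classical in
/-- `g` arises from the assignment `f` by an improving jump: one agent `i` moves to a node `w` that
is empty in `f`, and its utility strictly increases. -/
def ImprovingJump (G : SimpleGraph V) (τ : A → T) (f g : A → V) : Prop :=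
  ∃ (i : A) (w : V), (∀ j, f j ≠ w) ∧ g = Function.update f i w ∧
    utility G τ f i < utility G τ g i

/-- An assignment is an equilibrium if there is no improving jump from it. -/
def Equilibrium (G : SimpleGraph V) (τ : A → T) (f : A → V) : Prop :=
  ∀ g, ¬ ImprovingJump G τ f g

end Defs

/-! ### The tree -/

/-- The parent function of the tree: node `0` is the root, `0 - 1 - 2` is a path, nodes `3, …, 9`
are attached to `0`, nodes `10, …, 17` to `1`, nodes `18, 19` to `2`, and the leaf `c + 17` to `c`
for `3 ≤ c ≤ 19`. -/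
def par (v : ℕ) : ℕ :=
  if v ≤ 1 then 0 else if v = 2 then 1 else if v ≤ 9 then 0 else if v ≤ 17 then 1
    else if v ≤ 19 then 2 else v - 17

/-- The tree. -/
def tree : SimpleGraph (Fin 37) :=
  SimpleGraph.fromRel (fun v w => par v.val = w.val)

instance : DecidableRel tree.Adj := by
  unfold tree
  infer_instance

/-- The type of the agent whose initial node is `v`, for `1 ≤ v ≤ 19`. -/
def typ (v : ℕ) : ℕ :=
  if v ≤ 6 then 0 else if v ≤ 9 then 1 else if v ≤ 13 then 0 else if v ≤ 17 then 1
    else if v = 18 then 0 else 1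

/-- The type of the agent `i`, whose initial node is `i + 1`. -/
def τ (i : Fin 36) : Fin 2 :=
  if i.val + 1 ≤ 19 then Fin.ofNat 2 (typ (i.val + 1)) else Fin.ofNat 2 (1 - typ (i.val + 1 - 17))

/-- The assignment with agent `0` on node `x`, agent `1` on node `y`, and each other agent `i` on
node `i + 1`. -/
def st (x y : Fin 37) (i : Fin 36) : Fin 37 :=
  if i.val = 0 then x else if i.val = 1 then y else i.succ

/-! ### Computing utilities -/

/-- Number of agents next to agent `i`. -/
def cnt (f : Fin 36 → Fin 37) (i : Fin 36) : ℕ :=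
  (Finset.univ.filter (fun j => tree.Adj (f i) (f j))).card

/-- Number of agents of another type next to agent `i`. -/
def cntD (f : Fin 36 → Fin 37) (i : Fin 36) : ℕ :=
  (Finset.univ.filter (fun j => tree.Adj (f i) (f j) ∧ τ j ≠ τ i)).card

/-- The comparison `a / b < c / d` in natural numbers. -/
def ltq (a b c d : ℕ) : Prop := 0 < d ∧ if b = 0 then 0 < c else a * d < c * b

instance (a b c d : ℕ) : Decidable (ltq a b c d) := by
  unfold ltq
  infer_instance

theorem ltq_iff (a b c d : ℕ) : ((a : ℚ) / b < (c : ℚ) / d) ↔ ltq a b c d := by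
  unfold ltq
  rcases Nat.eq_zero_or_pos d with hd | hd
  · subst hd
    simp only [Nat.cast_zero, div_zero, lt_self_iff_false, false_and, iff_false, not_lt]
    positivity
  · have hd' : (0 : ℚ) < d := by exact_mod_cast hd
    rcases Nat.eq_zero_or_pos b with hb | hb
    · subst hb
      simp only [Nat.cast_zero, div_zero, hd, true_and, if_true]
      rw [div_pos_iff_of_pos_right hd']
      exact_mod_cast Iff.rfl
    · have hb' : (0 : ℚ) < b := by exact_mod_cast hb
      rw [div_lt_div_iff₀ hb' hd', if_neg hb.ne']
      simp only [hd, true_and]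
      exact_mod_cast Iff.rfl

theorem utility_eq (f : Fin 36 → Fin 37) (i : Fin 36) :
    utility tree τ f i = (cntD f i : ℚ) / (cnt f i : ℚ) := by
  unfold utility cnt cntD
  rw [Set.ncard_eq_toFinset_card', Set.ncard_eq_toFinset_card', Set.toFinset_ofPred,
    Set.toFinset_ofPred]

/-- Comparison of utilities of agent `i` in two assignments. -/
def better (f g : Fin 36 → Fin 37) (i : Fin 36) : Prop :=
  ltq (cntD f i) (cnt f i) (cntD g i) (cnt g i)

instance (f g : Fin 36 → Fin 37) (i : Fin 36) : Decidable (better f g i) := by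
  unfold better
  infer_instance

theorem better_iff (f g : Fin 36 → Fin 37) (i : Fin 36) :
    utility tree τ f i < utility tree τ g i ↔ better f g i := by
  rw [utility_eq, utility_eq, ltq_iff]
  rfl

/-- The move of agent `i` to the node `w`. -/
def mv (f : Fin 36 → Fin 37) (i : Fin 36) (w : Fin 37) (j : Fin 36) : Fin 37 :=
  if j = i then w else f j


theorem mv_eq (f : Fin 36 → Fin 37) (i : Fin 36) (w : Fin 37) :
    mv f i w = @Function.update (Fin 36) (fun _ => Fin 37) (fun _ _ => Classical.propDecidable _)
      f i w := by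
  funext j
  unfold mv Function.update
  by_cases h : j = i
  · subst h
    simp
  · simp [h]

/-! ### Fast evaluation with natural number arithmetic -/

/-- The list of parents, as one number in base `64`. -/
def parL : ℕ := 2030996234184439732578845429835946303905475708434000416796024246272

/-- The list of types, as one number in base `2`. -/
def typL : ℕ := 18194751936

/-- Parent, read off from `parL`. -/
def parN (v : ℕ) : ℕ := Nat.mod (Nat.div parL (Nat.pow 64 v)) 64

/-- Type, read off from `typL`. -/
def typN (i : ℕ) : ℕ := Nat.mod (Nat.div typL (Nat.pow 2 i)) 2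

theorem par_eq_parN : ∀ v : Fin 37, par v.val = parN v.val := by decide +kernel

theorem typ_eq_typN : ∀ i : Fin 36, (τ i).val = typN i.val := by decide +kernel

theorem beqF {a b : ℕ} : Nat.beq a b = false ↔ a ≠ b := by
  rw [← Bool.not_eq_true, ne_eq, not_iff_not]
  exact ⟨Nat.eq_of_beq_eq_true, fun h => by rw [h]; exact Nat.beq_refl b⟩

/-- Boolean adjacency. -/
def adjN (v w : ℕ) : Bool := (Nat.beq (parN v) w || Nat.beq (parN w) v) && !(Nat.beq v w)

/-- Number of `k < n` with `p k`. -/
def countN (p : ℕ → Bool) : ℕ → ℕ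
  | 0 => 0
  | (n + 1) => bif p n then countN p n + 1 else countN p n

/-- Whether `p k` for all `k < n`. -/
def allN (p : ℕ → Bool) : ℕ → Bool
  | 0 => true
  | (n + 1) => p n && allN p n

theorem allN_spec (p : ℕ → Bool) (n : ℕ) (h : allN p n = true) (k : ℕ) (hk : k < n) :
    p k = true := by
  induction n with
  | zero => omega
  | succ n ih =>
    simp only [allN, Bool.and_eq_true] at h
    rcases Nat.lt_succ_iff_lt_or_eq.1 hk with h1 | h1
    · exact ih h.2 h1
    · rw [h1]; exact h.1

theorem card_filter_eq_countN (p : ℕ → Bool) (n : ℕ) :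
    (Finset.univ.filter (fun j : Fin n => p j.val = true)).card = countN p n := by
  rw [Finset.card_filter, Fin.sum_univ_eq_sum_range (fun k => if p k = true then 1 else 0) n]
  induction n with
  | zero => simp [countN]
  | succ n ih =>
    rw [Finset.sum_range_succ, ih, countN]
    cases p n <;> simp

theorem adj_iff_adjN (v w : Fin 37) : tree.Adj v w ↔ adjN v.val w.val = true := by
  unfold tree adjN
  rw [SimpleGraph.fromRel_adj, par_eq_parN v, par_eq_parN w]
  simp only [Bool.and_eq_true, Bool.or_eq_true, Nat.beq_eq, Bool.not_eq_true', ne_eq]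
  constructor
  · rintro ⟨h1, h2⟩
    exact ⟨h2, beqF.2 fun h => h1 (Fin.ext h)⟩
  · rintro ⟨h1, h2⟩
    exact ⟨fun h => beqF.1 h2 (by rw [h]), h1⟩

/-- Number of agents next to agent `i`. -/
def cntN (f : ℕ → ℕ) (i : ℕ) : ℕ := countN (fun j => adjN (f i) (f j)) 36

/-- Number of agents of another type next to agent `i`. -/
def cntDN (f : ℕ → ℕ) (i : ℕ) : ℕ :=
  countN (fun j => adjN (f i) (f j) && !(Nat.beq (typN j) (typN i))) 36

theorem cnt_eq (f : Fin 36 → Fin 37) (fN : ℕ → ℕ) (h : ∀ j : Fin 36, (f j).val = fN j.val)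
    (i : Fin 36) : cnt f i = cntN fN i.val := by
  unfold cnt cntN
  rw [← card_filter_eq_countN]
  congr 1
  ext j
  simp only [Finset.mem_filter, Finset.mem_univ, true_and]
  rw [adj_iff_adjN, h, h]

theorem cntD_eq (f : Fin 36 → Fin 37) (fN : ℕ → ℕ) (h : ∀ j : Fin 36, (f j).val = fN j.val)
    (i : Fin 36) : cntD f i = cntDN fN i.val := by
  unfold cntD cntDN
  rw [← card_filter_eq_countN]
  congr 1
  ext j
  simp only [Finset.mem_filter, Finset.mem_univ, true_and, Bool.and_eq_true, Bool.not_eq_true']
  rw [adj_iff_adjN, h, h, beqF, ← typ_eq_typN, ← typ_eq_typN]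
  simp only [ne_eq, Fin.ext_iff]

/-- Boolean version of `ltq`. -/
def ltqB (a b c d : ℕ) : Bool :=
  Nat.ble 1 d && bif Nat.beq b 0 then Nat.ble 1 c else Nat.ble (Nat.succ (a * d)) (c * b)

theorem ltq_iff_ltqB (a b c d : ℕ) : ltq a b c d ↔ ltqB a b c d = true := by
  unfold ltq ltqB
  rw [Bool.and_eq_true, Nat.ble_eq]
  by_cases hb : b = 0
  · subst hb
    rw [if_pos rfl, show Nat.beq 0 0 = true from rfl, cond_true, Nat.ble_eq]
    exact Iff.rfl
  · have hb' : Nat.beq b 0 = false := beqF.2 hb
    rw [if_neg hb, hb', cond_false, Nat.ble_eq]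
    exact Iff.rfl

/-- Positions, on natural numbers. -/
def stN (x y : ℕ) (i : ℕ) : ℕ :=
  bif Nat.beq i 0 then x else bif Nat.beq i 1 then y else Nat.succ i

/-- Moves, on natural numbers. -/
def mvN (f : ℕ → ℕ) (i w j : ℕ) : ℕ := bif Nat.beq j i then w else f j

theorem st_eq (x y : Fin 37) (i : Fin 36) : (st x y i).val = stN x.val y.val i.val := by
  unfold st stN
  by_cases h0 : i.val = 0
  · simp [h0]
  · have h0' : Nat.beq i.val 0 = false := beqF.2 h0
    by_cases h1 : i.val = 1
    · have h1' : Nat.beq i.val 1 = true := by rw [h1]; rfl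
      rw [if_neg h0, if_pos h1, h0', h1', cond_false, cond_true]
    · have h1' : Nat.beq i.val 1 = false := beqF.2 h1
      rw [if_neg h0, if_neg h1, h0', h1', cond_false, cond_false, Fin.val_succ]

theorem mv_st_eq (x y w : Fin 37) (i j : Fin 36) :
    (mv (st x y) i w j).val = mvN (stN x.val y.val) i.val w.val j.val := by
  unfold mv mvN
  by_cases h : j = i
  · subst h
    simp
  · have h' : Nat.beq j.val i.val = false := beqF.2 fun hh => h (Fin.ext hh)
    rw [if_neg h, h', cond_false, st_eq]

/-- `better`, on natural numbers, for the move of agent `i` from `st x y` to `w`. -/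
def betterN (x y w i : ℕ) : Bool :=
  ltqB (cntDN (stN x y) i) (cntN (stN x y) i) (cntDN (mvN (stN x y) i w) i)
    (cntN (mvN (stN x y) i w) i)

theorem better_iff_betterN (x y w : Fin 37) (i : Fin 36) :
    better (st x y) (mv (st x y) i w) i ↔ betterN x.val y.val w.val i.val = true := by
  unfold better betterN
  rw [ltq_iff_ltqB, cnt_eq _ _ (st_eq x y), cntD_eq _ _ (st_eq x y),
    cnt_eq _ _ (mv_st_eq x y w i), cntD_eq _ _ (mv_st_eq x y w i)]

/-- Node of agent `0` in the six assignments of the closed set. -/
def tx : Fin 6 → Fin 37 := ![0, 0, 1, 1, 2, 2]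

/-- Node of agent `1` in the six assignments of the closed set. -/
def ty : Fin 6 → Fin 37 := ![1, 2, 0, 2, 0, 1]

/-- Empty node in the six assignments of the closed set. -/
def tw : Fin 6 → Fin 37 := ![2, 1, 2, 0, 1, 0]

/-- The six assignments of the closed set. -/
def S (k : Fin 6) : Fin 36 → Fin 37 := st (tx k) (ty k)

theorem key_const : ∀ k : Fin 6,
    allN (fun i => Nat.ble i 1 || !(betterN (tx k).val (ty k).val (tw k).val i)) 36 = true := by
  decide +kernel

/-- Only the agents `0` and `1` ever have an improving jump. -/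
theorem check_const (k : Fin 6) (i : Fin 36) (hi : 2 ≤ i.val) :
    ¬ better (S k) (mv (S k) i (tw k)) i := by
  have h := allN_spec _ _ (key_const k) i.val i.isLt
  have h2 : Nat.ble i.val 1 = false := by
    rw [Bool.eq_false_iff]
    intro h
    have := Nat.le_of_ble_eq_true h
    omega
  simp only [h2, Bool.false_or, Bool.not_eq_true'] at h
  rw [S, better_iff_betterN, h]
  exact Bool.false_ne_true

theorem key_move : ∀ k : Fin 6,
    (betterN (tx k).val (ty k).val (tw k).val 0 || betterN (tx k).val (ty k).val (tw k).val 1)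
      = true := by
  decide +kernel

/-- One of the agents `0` and `1` has an improving jump. -/
theorem check_move (k : Fin 6) :
    better (S k) (mv (S k) 0 (tw k)) 0 ∨ better (S k) (mv (S k) 1 (tw k)) 1 := by
  have h := key_move k
  rw [Bool.or_eq_true] at h
  rw [S, better_iff_betterN, better_iff_betterN]
  exact h

/-- The closed set of assignments. -/
def Good (f : Fin 36 → Fin 37) : Prop := ∃ k, f = S k

theorem trip_spec : ∀ k : Fin 6,
    (∀ w : Fin 37, w.val < 3 → w = tx k ∨ w = ty k ∨ w = tw k) ∧
    (tw k).val < 3 ∧ tx k ≠ tw k ∧ ty k ≠ tw k := by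
  decide +kernel

theorem trip_empty (k : Fin 6) (w : Fin 37) (hw : ∀ j, S k j ≠ w) : w = tw k := by
  obtain ⟨h1, -, -, -⟩ := trip_spec k
  by_cases h3 : w.val < 3
  · rcases h1 w h3 with h | h | h
    · exact absurd (by simp [S, st, h]) (hw 0)
    · exact absurd (by simp [S, st, h]) (hw 1)
    · exact h
  · exfalso
    have hlt : w.val - 1 < 36 := by have := w.isLt; omega
    apply hw ⟨w.val - 1, hlt⟩
    have e0 : ¬ (w.val - 1 = 0) := by omega
    have e1 : ¬ (w.val - 1 = 1) := by omega
    rw [S, st, if_neg e0, if_neg e1]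
    apply Fin.ext
    rw [Fin.val_succ]
    simp only
    omega

theorem trip_empty' (k : Fin 6) (j : Fin 36) : S k j ≠ tw k := by
  obtain ⟨-, h2, h3, h4⟩ := trip_spec k
  unfold S st
  by_cases e0 : j.val = 0
  · rw [if_pos e0]
    exact h3
  · by_cases e1 : j.val = 1
    · rw [if_neg e0, if_pos e1]
      exact h4
    · rw [if_neg e0, if_neg e1]
      intro h
      have h5 := congrArg Fin.val h
      rw [Fin.val_succ] at h5
      omega

theorem trip_next0 : ∀ k : Fin 6, ∃ k' : Fin 6, tx k' = tw k ∧ ty k' = ty k := by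
  decide +kernel

theorem trip_next1 : ∀ k : Fin 6, ∃ k' : Fin 6, tx k' = tx k ∧ ty k' = tw k := by
  decide +kernel

theorem mv0 (x y w : Fin 37) : mv (st x y) 0 w = st w y := by
  funext j
  unfold mv st
  by_cases h : j = 0
  · subst h
    simp
  · have h' : j.val ≠ 0 := fun h0 => h (Fin.ext h0)
    simp [h, h']

theorem mv1 (x y w : Fin 37) : mv (st x y) 1 w = st x w := by
  funext j
  unfold mv st
  by_cases h : j = 1
  · subst h
    simp
  · have h' : j.val ≠ 1 := fun h0 => h (Fin.ext h0)
    simp [h, h']

theorem good_step (f g : Fin 36 → Fin 37) (hf : Good f) (h : ImprovingJump tree τ f g) :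
    Good g := by
  obtain ⟨k, rfl⟩ := hf
  obtain ⟨i, w, hw, hg, hu⟩ := h
  have hwt := trip_empty k w hw
  subst hwt
  rw [← mv_eq] at hg
  subst hg
  rw [better_iff] at hu
  by_cases h2 : 2 ≤ i.val
  · exact absurd hu (check_const k i h2)
  · by_cases h0 : i = 0
    · subst h0
      obtain ⟨k', h3, h4⟩ := trip_next0 k
      refine ⟨k', ?_⟩
      rw [S, mv0, S, h3, h4]
    · have h1 : i = 1 := by
        apply Fin.ext
        have h0' : i.val ≠ 0 := fun h => h0 (Fin.ext h)
        have : i.val = 1 := by omega
        exact this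
      subst h1
      obtain ⟨k', h3, h4⟩ := trip_next1 k
      refine ⟨k', ?_⟩
      rw [S, mv1, S, h3, h4]

theorem good_not_equilibrium (f : Fin 36 → Fin 37) (hf : Good f) : ¬ Equilibrium tree τ f := by
  obtain ⟨k, rfl⟩ := hf
  intro he
  rcases check_move k with h | h
  · exact he (mv (S k) 0 (tw k)) ⟨0, tw k, trip_empty' k, mv_eq _ _ _, (better_iff _ _ _).2 h⟩
  · exact he (mv (S k) 1 (tw k)) ⟨1, tw k, trip_empty' k, mv_eq _ _ _, (better_iff _ _ _).2 h⟩

/-! ### The graph is a tree -/

/-- The parent function on nodes. -/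
def parF (v : Fin 37) : Fin 37 := Fin.ofNat 37 (par v.val)

theorem par_adj : ∀ v : Fin 37, v ≠ 0 → tree.Adj v (parF v) ∧ (parF v).val < v.val := by
  decide +kernel

theorem reach0 : ∀ (k : ℕ) (v : Fin 37), v.val ≤ k → tree.Reachable v 0 := by
  intro k
  induction k with
  | zero =>
    intro v hv
    have : v = 0 := Fin.ext (by simpa using hv)
    rw [this]
  | succ k ih =>
    intro v hv
    by_cases h0 : v = 0
    · rw [h0]
    · obtain ⟨ha, hlt⟩ := par_adj v h0
      exact ha.reachable.trans (ih (parF v) (by omega))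

theorem tree_connected : tree.Connected := by
  have : Nonempty (Fin 37) := ⟨0⟩
  exact ⟨fun u v => (reach0 _ u le_rfl).trans (reach0 _ v le_rfl).symm⟩

theorem adj_cases_aux (v w : Fin 37) (hne : v ≠ w) (h : par v.val = w.val) :
    v ≠ 0 ∧ parF v = w := by
  constructor
  · rintro rfl
    apply hne
    apply Fin.ext
    rw [← h]
    rfl
  · apply Fin.ext
    unfold parF
    rw [h]
    simp

theorem adj_cases (v w : Fin 37) (h : tree.Adj v w) :
    (v ≠ 0 ∧ parF v = w) ∨ (w ≠ 0 ∧ parF w = v) := by
  unfold tree at h
  rw [SimpleGraph.fromRel_adj] at h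
  obtain ⟨hne, h | h⟩ := h
  · exact Or.inl (adj_cases_aux v w hne h)
  · exact Or.inr (adj_cases_aux w v hne.symm h)

theorem card_edges_le : Nat.card tree.edgeSet ≤ 36 := by
  have hsub : tree.edgeSet ⊆ (fun v : Fin 37 => s(v, parF v)) '' {v | v ≠ 0} := by
    intro e
    induction e using Sym2.ind with
    | _ v w =>
      intro h
      rw [SimpleGraph.mem_edgeSet] at h
      rcases adj_cases v w h with ⟨h1, h2⟩ | ⟨h1, h2⟩
      · exact ⟨v, h1, by simp [h2]⟩
      · exact ⟨w, h1, by simp [h2, Sym2.eq_swap]⟩
  have h1 : tree.edgeSet.ncard ≤ ((fun v : Fin 37 => s(v, parF v)) '' {v | v ≠ 0}).ncard :=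
    Set.ncard_le_ncard hsub (Set.toFinite _)
  have h2 : ((fun v : Fin 37 => s(v, parF v)) '' {v | v ≠ 0}).ncard ≤ ({v : Fin 37 | v ≠ 0}).ncard :=
    Set.ncard_image_le (Set.toFinite _)
  have h3 : ({v : Fin 37 | v ≠ 0}).ncard = 36 := by
    rw [Set.ncard_eq_toFinset_card', Set.toFinset_ofPred]
    decide +kernel
  have h4 : Nat.card tree.edgeSet = tree.edgeSet.ncard := rfl
  omega

theorem tree_isTree : tree.IsTree := by
  rw [SimpleGraph.isTree_iff_connected_and_card]
  refine ⟨tree_connected, ?_⟩
  have h1 := tree_connected.card_vert_le_card_edgeSet_add_one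
  have h2 := card_edges_le
  have h3 : Nat.card (Fin 37) = 37 := by simp
  omega

/-- **Q1 is false.**  There are a tree with 37 nodes, 36 agents of two types and an initial
assignment such that no assignment reachable from it by improving jumps is an equilibrium. -/
theorem result : ∃ (G : SimpleGraph (Fin 37)) (τ : Fin 36 → Fin 2) (f₀ : Fin 36 → Fin 37),
    G.IsTree ∧ Function.Surjective τ ∧ Function.Injective f₀ ∧
    ∀ g, Relation.ReflTransGen (ImprovingJump G τ) f₀ g → ¬ Equilibrium G τ g := by
  refine ⟨tree, τ, Fin.succ, tree_isTree, ?_, Fin.succ_injective _, ?_⟩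
  · decide +kernel
  · have h0 : Good Fin.succ := by
      refine ⟨3, ?_⟩
      funext j
      show j.succ = st 1 2 j
      unfold st
      by_cases e0 : j.val = 0
      · rw [if_pos e0]
        apply Fin.ext
        rw [Fin.val_succ, e0]
        rfl
      · by_cases e1 : j.val = 1
        · rw [if_neg e0, if_pos e1]
          apply Fin.ext
          rw [Fin.val_succ, e1]
          rfl
        · rw [if_neg e0, if_neg e1]
    intro g hg
    apply good_not_equilibrium
    induction hg with
    | refl => exact h0
    | tail _ h ih => exact good_step _ _ ih h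

end Pool.Agent.Results.MP_39759c_lc.NotWeaklyAcyclic
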